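import Pool.Agent.H35.Z.Df
import Pool.Agent.H3.Y.Dg

/-! A further definition used in the statement. -/

set_option autoImplicit false
open Finset

namespace Pool.Agent.H3.L

/-- the number of the triples of vertices whose codegree `d` satisfies `n / 2 < d < 3 * n / 4 - k`, where
`n` is the number of vertices -/
def mid {V : Type} [Fintype V] [DecidableEq V] (H : Finset (Finset V)) (k : ℕ) : ℕ :=
  (((univ : Finset V).powersetCard 3).filter fun T =>
    Fintype.card V < 2 * Pool.Agent.H35.Z.codeg H T ∧ 4 * (Pool.Agent.H35.Z.codeg H T + k) < 3 * Fintype.card V).card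

end Pool.Agent.H3.L
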