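import Pool.Agent.H3.Y.Fin
import Pool.Agent.H3.L.Df
import Pool.Agent.H35.Z.LowG
import Pool.Agent.H54.L2.Odd
import Pool.Agent.H68.L2.Cob

/-! The upper bound, in terms of the definitions of the statement. -/

set_option autoImplicit false
open Finset

namespace Pool.Agent.H3.L
open Pool.Agent.H35.Z Pool.Agent.H3.Y

section
variable {V : Type} [Fintype V] [DecidableEq V]

theorem codeg_two {H : Finset (Finset V)} (h4 : Pool.Agent.H35.Z.FourGraph H) {T : Finset V} (hT : T.card = 3) :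
    Pool.Agent.H3.Y.codeg H T = Pool.Agent.H35.Z.codeg H T := by
  have h : Pool.Agent.H35.Z.codeg H T = (univ.filter (fun d => insert d T ∈ H)).card :=
    Pool.Agent.Helper27.E7.Low.codeg_eq h4 hT
  rw [h, Pool.Agent.H54.L2.codeg_eq]
  refine congrArg Finset.card (filter_congr fun v _ => ⟨fun h => h.2, fun h => ⟨fun hv => ?_, h⟩⟩)
  have := h4 _ h
  rw [insert_eq_of_mem hv] at this
  omega

theorem sq_two (H : Finset (Finset V)) (h4 : Pool.Agent.H35.Z.FourGraph H) : co2 H = sq H := by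
  unfold co2 Pool.Agent.H35.Z.sq
  exact sum_congr rfl fun T hT => by rw [codeg_two h4 (mem_powersetCard.mp hT).2]

/-- **the upper bound** -/
theorem upper (H : Finset (Finset V)) (h4 : Pool.Agent.H35.Z.FourGraph H) (hK : Pool.Agent.H35.Z.K5Free H) :
    3072 * sq H + 3 * odd5 H ≤ 248 * Fintype.card V ^ 5 := by
  rw [← sq_two H h4]
  exact upper_odd Pool.Agent.H54.L2.odd H h4 hK

theorem choose3_le (n : ℕ) : 6 * ((n.choose 3 : ℕ) : ℤ) ≤ (n : ℤ) ^ 3 := by
  rw [Pool.Agent.Helper27.E7.Low.choose3]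
  rcases Nat.eq_zero_or_pos n with h | h
  · subst h
    norm_num
  · have : (1 : ℤ) ≤ n := by exact_mod_cast h
    nlinarith

theorem sum_codeg {H : Finset (Finset V)} (h4 : Pool.Agent.H35.Z.FourGraph H) :
    ∑ T ∈ (univ : Finset V).powersetCard 3, (Pool.Agent.H35.Z.codeg H T : ℤ) = 4 * (H.card : ℤ) :=
  Pool.Agent.Helper27.E7.Low.sumC1 h4

/-- **the number of edges** -/
theorem edges (H : Finset (Finset V)) (h4 : Pool.Agent.H35.Z.FourGraph H) (hK : Pool.Agent.H35.Z.K5Free H) :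
    15360 * ((Fintype.card V : ℤ) * (H.card : ℤ)) + 3 * (odd5 H : ℤ) + 384 * ∑ T ∈ (univ : Finset V).powersetCard 3,
      (2 * (Pool.Agent.H35.Z.codeg H T : ℤ) - Fintype.card V) * (4 * (Pool.Agent.H35.Z.codeg H T : ℤ) - 3 * Fintype.card V) ≤
      440 * (Fintype.card V : ℤ) ^ 5 := by
  have h1 : 3072 * ∑ T ∈ (univ : Finset V).powersetCard 3, (Pool.Agent.H35.Z.codeg H T : ℤ) ^ 2 + 3 * (odd5 H : ℤ) ≤
      248 * (Fintype.card V : ℤ) ^ 5 := by
    have := upper H h4 hK
    unfold Pool.Agent.H35.Z.sq at this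
    exact_mod_cast this
  have h2 := sum_codeg h4
  have h3 := choose3_le (Fintype.card V)
  have e : ∑ T ∈ (univ : Finset V).powersetCard 3,
      (2 * (Pool.Agent.H35.Z.codeg H T : ℤ) - Fintype.card V) * (4 * (Pool.Agent.H35.Z.codeg H T : ℤ) - 3 * Fintype.card V) =
      8 * ∑ T ∈ (univ : Finset V).powersetCard 3, (Pool.Agent.H35.Z.codeg H T : ℤ) ^ 2 -
      10 * (Fintype.card V : ℤ) * ∑ T ∈ (univ : Finset V).powersetCard 3, (Pool.Agent.H35.Z.codeg H T : ℤ) +
      3 * (Fintype.card V : ℤ) ^ 2 * ((Fintype.card V).choose 3 : ℕ) := by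
    have c : (((Fintype.card V).choose 3 : ℕ) : ℤ) = ∑ T ∈ (univ : Finset V).powersetCard 3, (1 : ℤ) := by
      rw [sum_const, card_powersetCard, card_univ, nsmul_eq_mul, mul_one]
    rw [c, mul_sum, mul_sum, mul_sum, ← sum_sub_distrib, ← sum_add_distrib]
    refine sum_congr rfl fun T _ => ?_
    ring
  rw [e, h2]
  have h4' : (Fintype.card V : ℤ) ^ 2 * (6 * (((Fintype.card V).choose 3 : ℕ) : ℤ)) ≤ (Fintype.card V : ℤ) ^ 2 * (Fintype.card V : ℤ) ^ 3 :=
    mul_le_mul_of_nonneg_left h3 (by positivity)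
  have e5 : (Fintype.card V : ℤ) ^ 2 * (Fintype.card V : ℤ) ^ 3 = (Fintype.card V : ℤ) ^ 5 := by ring
  rw [e5] at h4'
  linarith

/-- **edges and the triples of medium codegree** -/
theorem mid_bound (H : Finset (Finset V)) (h4 : Pool.Agent.H35.Z.FourGraph H) (hK : Pool.Agent.H35.Z.K5Free H) (k : ℕ) :
    15360 * (Fintype.card V * H.card) + 3 * odd5 H ≤
      440 * Fintype.card V ^ 5 + 128 * (k * Fintype.card V ^ 4) + 48 * (Fintype.card V ^ 2 * mid H k) := by
  have h1 := edges H h4 hK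
  have h3 := choose3_le (Fintype.card V)
  have h2 : ∑ T ∈ (univ : Finset V).powersetCard 3, (-(16 * ((k : ℤ) * Fintype.card V)) - (Fintype.card V : ℤ) ^ 2 *
        (if Fintype.card V < 2 * Pool.Agent.H35.Z.codeg H T ∧ 4 * (Pool.Agent.H35.Z.codeg H T + k) < 3 * Fintype.card V then (1 : ℤ) else 0)) ≤
      ∑ T ∈ (univ : Finset V).powersetCard 3,
        8 * ((2 * (Pool.Agent.H35.Z.codeg H T : ℤ) - Fintype.card V) * (4 * (Pool.Agent.H35.Z.codeg H T : ℤ) - 3 * Fintype.card V)) := by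
    refine sum_le_sum fun T hT => ?_
    have hk : (0 : ℤ) ≤ k := Int.natCast_nonneg k
    have hn : (0 : ℤ) ≤ Fintype.card V := Int.natCast_nonneg _
    have hkn := mul_nonneg hk hn
    generalize Pool.Agent.H35.Z.codeg H T = c
    have hsq : 0 ≤ (8 * (c : ℤ) - 5 * Fintype.card V) ^ 2 := sq_nonneg _
    split_ifs with hm
    · nlinarith
    · by_cases h5 : Fintype.card V < 2 * c
      · have h6 : 3 * Fintype.card V ≤ 4 * (c + k) := by
          by_contra h7
          exact hm ⟨h5, by omega⟩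
        have h5' : (Fintype.card V : ℤ) < 2 * (c : ℤ) := by exact_mod_cast h5
        have h6' : 3 * (Fintype.card V : ℤ) ≤ 4 * ((c : ℤ) + k) := by exact_mod_cast h6
        rcases le_total (3 * (Fintype.card V : ℤ)) (4 * (c : ℤ)) with h7 | h7
        · have h8 : 0 ≤ (2 * (c : ℤ) - Fintype.card V) * (4 * (c : ℤ) - 3 * Fintype.card V) :=
            mul_nonneg (by linarith) (by linarith)
          linarith
        · have h8 : 0 ≤ (2 * (c : ℤ) - Fintype.card V) * (4 * k - (3 * Fintype.card V - 4 * (c : ℤ))) :=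
            mul_nonneg (by linarith) (by linarith)
          have h9 : 0 ≤ (k : ℤ) * (Fintype.card V - 2 * (2 * (c : ℤ) - Fintype.card V)) :=
            mul_nonneg hk (by linarith)
          nlinarith
      · have h5' : 2 * (c : ℤ) ≤ Fintype.card V := by exact_mod_cast (not_lt.mp h5)
        have h6 : 0 ≤ (Fintype.card V - 2 * (c : ℤ)) * (3 * Fintype.card V - 4 * (c : ℤ)) :=
          mul_nonneg (by linarith) (by linarith)
        nlinarith
  have hmid : ∑ T ∈ (univ : Finset V).powersetCard 3,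
      (if Fintype.card V < 2 * Pool.Agent.H35.Z.codeg H T ∧ 4 * (Pool.Agent.H35.Z.codeg H T + k) < 3 * Fintype.card V then (1 : ℤ) else 0) = (mid H k : ℤ) := by
    rw [sum_boole]
    rfl
  rw [sum_sub_distrib, ← mul_sum, hmid, sum_const, card_powersetCard, card_univ, nsmul_eq_mul, ← mul_sum] at h2
  have hkn : (0 : ℤ) ≤ (k : ℤ) * Fintype.card V := mul_nonneg (Int.natCast_nonneg k) (Int.natCast_nonneg _)
  have h5 := mul_le_mul_of_nonneg_left h3 hkn
  have key : 15360 * ((Fintype.card V : ℤ) * (H.card : ℤ)) + 3 * (odd5 H : ℤ) ≤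
      440 * (Fintype.card V : ℤ) ^ 5 + 128 * ((k : ℤ) * (Fintype.card V : ℤ) ^ 4) + 48 * ((Fintype.card V : ℤ) ^ 2 * (mid H k : ℤ)) := by
    generalize (Fintype.card V : ℤ) = x at *
    generalize (((Fintype.card V).choose 3 : ℕ) : ℤ) = c at *
    have e1 : (k : ℤ) * x * x ^ 3 = (k : ℤ) * x ^ 4 := by ring
    rw [e1] at h5
    linarith
  exact_mod_cast key

end

/-- **few odd five-sets** -/
theorem cob (n : ℕ) (H : Finset (Finset (Fin n))) (h4 : Pool.Agent.H35.Z.FourGraph H) (hK : Pool.Agent.H35.Z.K5Free H) :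
    ∃ G : Finset (Finset (Fin n)), (∀ e ∈ G, e.card = 3) ∧
      3 * (n * cobDist H G) + 15360 * sq H ≤ 1240 * n ^ 5 ∧
      ∀ k : ℕ, 3 * (n * cobDist H G) + 76800 * (n * H.card) ≤
        2200 * n ^ 5 + 640 * (k * n ^ 4) + 240 * (n ^ 2 * mid H k) := by
  obtain ⟨G, hG, h⟩ := Pool.Agent.H68.L2.t_COB n H h4
  refine ⟨G, hG, ?_, fun k => ?_⟩
  · have h1 := upper H h4 hK
    rw [Fintype.card_fin] at h1
    omega
  · have h1 := mid_bound H h4 hK k
    rw [Fintype.card_fin] at h1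
    omega

end Pool.Agent.H3.L
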